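import Pool.Agent.N594.NT.Stm2

/-!
# NT/UP: from averages to families of sets (helper225 for helper594)
-/

set_option autoImplicit false

open Finset Filter Topology
open scoped Classical

namespace Pool.Agent.N225.NT.UP

open Pool.Agent.TH200.LP Pool.Agent.N594.CT Pool.Agent.N442.ES Pool.Agent.N594.NT

/-- the sequences which complete a pair to an edge -/
lemma seq_ge {V : Type} [Fintype V] (d : ℕ) (G : Finset (Finset V)) (hG : ∀ e ∈ G, e.card = d + 2)
    (H : Finset V → Prop) (hH : ∀ Z, H Z ↔ Z ∈ G) (x y : V) (hxy : x ≠ y) :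
    d.factorial * (G.filter fun e => x ∈ e ∧ y ∈ e).card ≤
      (univ.filter fun z : Fin d → V => H (insert x (insert y (univ.image z)))).card := by
  refine Finset.mul_card_image_le_card_of_maps_to
    (f := fun z : Fin d → V => insert x (insert y (univ.image z))) ?_ _ ?_
  · intro z hz
    rw [mem_filter] at hz ⊢
    exact ⟨(hH _).1 hz.2, mem_insert_self _ _, mem_insert_of_mem (mem_insert_self _ _)⟩
  · intro e he
    rw [mem_filter] at he
    obtain ⟨heG, hx, hy⟩ := he
    have hy' : y ∈ e.erase x := mem_erase.2 ⟨hxy.symm, hy⟩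
    have hc : ((e.erase x).erase y).card = d := by
      rw [card_erase_of_mem hy', card_erase_of_mem hx, hG e heG]
      omega
    have h1 : Fintype.card (Fin d ↪ {v // v ∈ (e.erase x).erase y}) = d.factorial := by
      rw [Fintype.card_embedding_eq, Fintype.card_coe, hc, Fintype.card_fin,
        Nat.descFactorial_self]
    rw [← h1, ← card_univ]
    refine card_le_card_of_injOn (fun g : Fin d ↪ {v // v ∈ (e.erase x).erase y} =>
      fun a => (g a).1) ?_ ?_
    · intro g _
      have hinj : Function.Injective fun a => (g a).1 := fun a b hab =>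
        g.injective (Subtype.ext hab)
      have himg : univ.image (fun a => (g a).1) = (e.erase x).erase y := by
        refine eq_of_subset_of_card_le ?_ ?_
        · intro v hv
          obtain ⟨a, -, rfl⟩ := mem_image.mp hv
          exact (g a).2
        · rw [card_image_of_injective _ hinj, card_univ, Fintype.card_fin, hc]
      have he2 : insert x (insert y (univ.image fun a => (g a).1)) = e := by
        rw [himg, insert_erase hy', insert_erase hx]
      refine mem_coe.2 (mem_filter.2 ⟨mem_filter.2 ⟨mem_univ _, ?_⟩, he2⟩)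
      rw [he2, hH]
      exact heG
    · intro g _ g' _ h
      refine DFunLike.ext _ _ fun a => Subtype.ext ?_
      exact congrFun h a

/-- pairs and ordered pairs -/
lemma pairs {V : Type} [Fintype V] (F : Finset V → ℝ) (hF : ∀ X, 0 ≤ F X) :
    2 * ∑ X ∈ (univ : Finset V).powersetCard 2, F X ≤
      ∑ p ∈ (univ : Finset (V × V)).filter (fun p => p.1 ≠ p.2), F {p.1, p.2} := by
  rw [← sum_fiberwise_of_maps_to (s := (univ : Finset (V × V)).filter (fun p => p.1 ≠ p.2))
    (g := fun p : V × V => ({p.1, p.2} : Finset V)) (t := (univ : Finset V).powersetCard 2),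
    mul_sum]
  · refine sum_le_sum fun X hX => ?_
    obtain ⟨a, b, hab, rfl⟩ := card_eq_two.1 (mem_powersetCard.1 hX).2
    have h1 : ∑ p ∈ ((univ : Finset (V × V)).filter (fun p => p.1 ≠ p.2)).filter
        (fun p => ({p.1, p.2} : Finset V) = {a, b}), F {p.1, p.2} =
        ∑ p ∈ ((univ : Finset (V × V)).filter (fun p => p.1 ≠ p.2)).filter
        (fun p => ({p.1, p.2} : Finset V) = {a, b}), F {a, b} :=
      sum_congr rfl fun p hp => by rw [(mem_filter.1 hp).2]
    rw [h1, sum_const, nsmul_eq_mul]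
    refine mul_le_mul_of_nonneg_right ?_ (hF _)
    have h2 : ({(a, b), (b, a)} : Finset (V × V)) ⊆
        ((univ : Finset (V × V)).filter (fun p => p.1 ≠ p.2)).filter
        (fun p => ({p.1, p.2} : Finset V) = {a, b}) := by
      intro p hp
      rw [mem_insert, mem_singleton] at hp
      rw [mem_filter, mem_filter]
      rcases hp with rfl | rfl
      · exact ⟨⟨mem_univ _, hab⟩, rfl⟩
      · exact ⟨⟨mem_univ _, hab.symm⟩, pair_comm b a⟩
    have h3 := card_le_card h2
    rw [card_pair (fun h => hab (congrArg Prod.fst h))] at h3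
    exact_mod_cast h3
  · intro p hp
    rw [mem_powersetCard]
    exact ⟨subset_univ _, card_pair (mem_filter.1 hp).2⟩

/-- the local condition for sequences -/
lemma fr_of {V : Type} [Fintype V] {d k : ℕ} (hk : 2 ≤ k) (G : Finset (Finset V))
    (hG : ∀ e ∈ G, e.card = d + 2)
    (hK : ∀ S : Finset V, S.card = k * (d + 1) + 1 → ∃ e ⊆ S, e.card = d + 2 ∧ e ∉ G) :
    Fr d k (fun Z : Finset V => Z ∈ G) := by
  intro φ
  by_cases hφ : Function.Injective φ
  · obtain ⟨e, he, hec, heG⟩ := hK (univ.image φ)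
      (by rw [card_image_of_injective _ hφ, card_univ, Fintype.card_fin])
    have himg : (univ.filter fun a => φ a ∈ e).image φ = e := by
      ext v
      rw [mem_image]
      constructor
      · rintro ⟨a, ha, rfl⟩
        exact (mem_filter.1 ha).2
      · intro hv
        obtain ⟨a, -, rfl⟩ := mem_image.1 (he hv)
        exact ⟨a, mem_filter.2 ⟨mem_univ _, hv⟩, rfl⟩
    refine ⟨univ.filter fun a => φ a ∈ e, ?_, ?_⟩
    · rw [← hec]
      conv_rhs => rw [← himg]
      rw [card_image_of_injective _ hφ]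
    · intro h
      apply heG
      rw [← himg]
      exact h
  · rw [Function.Injective] at hφ
    push Not at hφ
    obtain ⟨a, b, hab, hne⟩ := hφ
    obtain ⟨J, hJ, hJc⟩ := exists_superset_card_eq (s := ({a, b} : Finset (Fin (k * (d + 1) + 1))))
      (n := d + 2) (by rw [card_pair hne]; omega) (by rw [Fintype.card_fin]; nlinarith)
    refine ⟨J, hJc, fun h => ?_⟩
    have h1 := hG _ h
    rw [← hJc] at h1
    have h2 := card_image_iff.1 h1
    exact hne (h2 (hJ (by simp)) (hJ (by simp)) hab)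

lemma cdg_eq {V : Type} [Fintype V] [Nonempty V] (d : ℕ) (H : Finset V → Prop) (x y : V) :
    cdg d H x y * (Fintype.card V : ℝ) ^ d = ((univ.filter fun z : Fin d → V =>
      H (insert x (insert y (univ.image z)))).card : ℝ) := by
  have hV : (Fintype.card V : ℝ) ≠ 0 := by
    have := Fintype.card_pos (α := V)
    positivity
  unfold cdg av ind
  rw [sum_boole, Fintype.card_fun, Fintype.card_fin, Nat.cast_pow,
    div_mul_cancel₀ _ (pow_ne_zero d hV)]

lemma cdg_nonneg {V : Type} [Fintype V] (d : ℕ) (H : Finset V → Prop) (x y : V) :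
    0 ≤ cdg d H x y := av_nonneg fun _ => ind_nonneg _

/-- the comparison of the degree of a pair with the average -/
lemma deg_le {V : Type} [Fintype V] {n d : ℕ} (hV : Fintype.card V = n) (hn : d + 3 ≤ n)
    (G : Finset (Finset V)) (hG : ∀ e ∈ G, e.card = d + 2) (x y : V) (hxy : x ≠ y) (D : ℕ)
    (h3 : D ≤ (G.filter fun e => x ∈ e ∧ y ∈ e).card) :
    (D : ℝ) / ((n - 2).choose (d + 2 - 2) : ℝ) ≤
      ((n : ℝ) / ((n : ℝ) + (-((d : ℝ) + 1)))) ^ d * cdg d (fun Z : Finset V => Z ∈ G) x y := by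
  have hne : Nonempty V := ⟨x⟩
  have h1 := seq_ge d G hG (fun Z : Finset V => Z ∈ G) (fun Z => Iff.rfl) x y hxy
  have h2 := cdg_eq d (fun Z : Finset V => Z ∈ G) x y
  rw [hV] at h2
  have h4 : ((d.factorial : ℝ)) * (D : ℝ) ≤
      cdg d (fun Z : Finset V => Z ∈ G) x y * (n : ℝ) ^ d := by
    rw [h2]
    exact_mod_cast (Nat.mul_le_mul_left _ h3).trans h1
  have h5 : (n - 1 - d) ^ d ≤ d.factorial * (n - 2).choose (d + 2 - 2) := by
    rw [show d + 2 - 2 = d by omega, ← Nat.descFactorial_eq_factorial_mul_choose]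
    have := Nat.pow_sub_le_descFactorial (n - 2) d
    rwa [show n - 2 + 1 - d = n - 1 - d by omega] at this
  have h6 : ((n : ℝ) + (-((d : ℝ) + 1))) ^ d ≤
      (d.factorial : ℝ) * ((n - 2).choose (d + 2 - 2) : ℝ) := by
    have h7 : ((n : ℝ) + (-((d : ℝ) + 1))) = ((n - 1 - d : ℕ) : ℝ) := by
      rw [Nat.cast_sub (by omega), Nat.cast_sub (by omega)]
      push_cast
      ring
    rw [h7]
    exact_mod_cast h5
  have hpos : (0 : ℝ) < (n : ℝ) + (-((d : ℝ) + 1)) := by
    have : ((d + 3 : ℕ) : ℝ) ≤ (n : ℝ) := by exact_mod_cast hn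
    push_cast at this
    linarith
  have hC : (0 : ℝ) < ((n - 2).choose (d + 2 - 2) : ℝ) := by
    exact_mod_cast Nat.choose_pos (by omega)
  have hf : (0 : ℝ) < (d.factorial : ℝ) := by exact_mod_cast Nat.factorial_pos d
  rw [div_le_iff₀ hC, div_pow]
  have hc := cdg_nonneg d (fun Z : Finset V => Z ∈ G) x y
  have hpd : (0 : ℝ) < ((n : ℝ) + (-((d : ℝ) + 1))) ^ d := pow_pos hpos d
  have h8 : (d.factorial : ℝ) * (D : ℝ) ≤ (d.factorial : ℝ) *
      ((n : ℝ) ^ d / ((n : ℝ) + (-((d : ℝ) + 1))) ^ d *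
        cdg d (fun Z : Finset V => Z ∈ G) x y * ((n - 2).choose (d + 2 - 2) : ℝ)) := by
    refine h4.trans ?_
    have e : (d.factorial : ℝ) * ((n : ℝ) ^ d / ((n : ℝ) + (-((d : ℝ) + 1))) ^ d *
        cdg d (fun Z : Finset V => Z ∈ G) x y * ((n - 2).choose (d + 2 - 2) : ℝ)) =
        (cdg d (fun Z : Finset V => Z ∈ G) x y * (n : ℝ) ^ d) *
        (((d.factorial : ℝ) * ((n - 2).choose (d + 2 - 2) : ℝ)) /
          ((n : ℝ) + (-((d : ℝ) + 1))) ^ d) := by ring
    rw [e]
    refine le_mul_of_one_le_right (by positivity) ?_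
    rw [one_le_div hpd]
    exact h6
  exact le_of_mul_le_mul_left h8 hf

/-- the bound for the norm -/
lemma nsum_le {V : Type} [Fintype V] {n d : ℕ} (hV : Fintype.card V = n) (hn : d + 3 ≤ n) {p : ℝ}
    (hp : 1 ≤ p) (G : Finset (Finset V)) (hG : ∀ e ∈ G, e.card = d + 2) (deg : Finset V → ℕ)
    (hdeg : ∀ (X : Finset V) (x y : V), x ∈ X → y ∈ X →
      ∃ S : Finset (Finset V), deg X ≤ S.card ∧ ∀ e ∈ S, e ∈ G ∧ x ∈ e ∧ y ∈ e) :
    2 * ∑ X ∈ (univ : Finset V).powersetCard 2,
      ((deg X : ℝ) / ((n - 2).choose (d + 2 - 2) : ℝ)) ^ p ≤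
      (((n : ℝ) / ((n : ℝ) + (-((d : ℝ) + 1)))) ^ d) ^ p * ((n : ℝ) ^ 2 *
      (av fun x : V => av fun y : V => cdg d (fun Z : Finset V => Z ∈ G) x y ^ p)) := by
  have hn0 : (n : ℝ) ≠ 0 := by
    have : n ≠ 0 := by omega
    exact_mod_cast this
  have hmu : 0 ≤ ((n : ℝ) / ((n : ℝ) + (-((d : ℝ) + 1)))) ^ d := by
    have : ((d + 3 : ℕ) : ℝ) ≤ (n : ℝ) := by exact_mod_cast hn
    push_cast at this
    have hpos : (0 : ℝ) < (n : ℝ) + (-((d : ℝ) + 1)) := by linarith
    positivity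
  have h1 : (n : ℝ) ^ 2 * (av fun x : V => av fun y : V =>
        cdg d (fun Z : Finset V => Z ∈ G) x y ^ p) =
      ∑ q : V × V, cdg d (fun Z : Finset V => Z ∈ G) q.1 q.2 ^ p := by
    rw [Fintype.sum_prod_type]
    unfold av
    rw [hV, ← sum_div]
    field_simp
  rw [h1]
  conv_rhs => rw [mul_sum]
  refine (pairs (fun X => ((deg X : ℝ) / ((n - 2).choose (d + 2 - 2) : ℝ)) ^ p)
    (fun X => by positivity)).trans ?_
  refine (sum_le_sum fun q hq => ?_).trans (sum_le_sum_of_subset_of_nonneg (filter_subset _ _)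
    fun q _ _ => mul_nonneg (Real.rpow_nonneg hmu _) (Real.rpow_nonneg (cdg_nonneg _ _ _ _) _))
  rw [← Real.mul_rpow hmu (cdg_nonneg _ _ _ _)]
  refine Real.rpow_le_rpow (by positivity) ?_ (by linarith)
  obtain ⟨S, hS, hS2⟩ := hdeg ({q.1, q.2} : Finset V) q.1 q.2 (mem_insert_self _ _)
    (mem_insert_of_mem (mem_singleton_self _))
  exact deg_le hV hn G hG q.1 q.2 (mem_filter.1 hq).2 _
    (hS.trans (card_le_card fun e he => mem_filter.2 (hS2 e he)))

theorem main : Pool.Agent.N594.NT.S_UP := by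
  intro hmain d k hd hk
  obtain ⟨p₀, hp₀, hM⟩ := hmain d k hd hk
  refine ⟨p₀, hp₀, fun p hp ε hε => ?_⟩
  have hp1 : 1 ≤ p := hp₀.trans hp
  -- the limit
  have hlim : Tendsto (fun n : ℕ => (((n : ℝ) / ((n : ℝ) + (-((d : ℝ) + 1)))) ^ d) ^ p *
      ((n : ℝ) / ((n : ℝ) + (-1))) * phi d k p) atTop (𝓝 (phi d k p)) := by
    have a1 : Tendsto (fun n : ℕ => (n : ℝ) / ((n : ℝ) + (-((d : ℝ) + 1)))) atTop (𝓝 1) :=
      tendsto_natCast_div_add_atTop _
    have a2 : Tendsto (fun n : ℕ => (n : ℝ) / ((n : ℝ) + (-1))) atTop (𝓝 1) :=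
      tendsto_natCast_div_add_atTop _
    have a3 := (a1.pow d).rpow_const (p := p) (Or.inr (by linarith))
    have a4 := (a3.mul a2).mul_const (phi d k p)
    rwa [one_pow, Real.one_rpow, one_mul, one_mul] at a4
  have hev := hlim.eventually_lt_const (show phi d k p < phi d k p + ε by linarith)
  obtain ⟨N, hN⟩ := eventually_atTop.1 hev
  refine ⟨max N (d + 3), fun n hn G hG hK => ?_⟩
  have hnN := hN n ((le_max_left _ _).trans hn)
  have hnd : d + 3 ≤ n := (le_max_right _ _).trans hn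
  have hne : Nonempty (Fin n) := ⟨⟨0, by omega⟩⟩
  have h1 := hM p hp (Fin n) (fun Z : Finset (Fin n) => Z ∈ G) (fun Z hZ => hG Z hZ)
    (fr_of hk G hG hK)
  have h2 := nsum_le (V := Fin n) (Fintype.card_fin n) hnd hp1 G hG (degr G)
    fun X x y hx hy => ⟨_, le_refl _, fun e he => by
      rw [mem_filter] at he
      exact ⟨he.1, he.2 hx, he.2 hy⟩⟩
  have hmu : 0 ≤ (((n : ℝ) / ((n : ℝ) + (-((d : ℝ) + 1)))) ^ d) ^ p := by
    refine Real.rpow_nonneg ?_ _
    have : ((d + 3 : ℕ) : ℝ) ≤ (n : ℝ) := by exact_mod_cast hnd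
    push_cast at this
    have hpos : (0 : ℝ) < (n : ℝ) + (-((d : ℝ) + 1)) := by linarith
    positivity
  have hn1 : (1 : ℝ) < (n : ℝ) := by
    have : 1 < n := by omega
    exact_mod_cast this
  have h3 : 2 * nsum 2 (d + 2) p G ≤
      (((n : ℝ) / ((n : ℝ) + (-((d : ℝ) + 1)))) ^ d) ^ p * ((n : ℝ) ^ 2 * phi d k p) :=
    h2.trans (mul_le_mul_of_nonneg_left (mul_le_mul_of_nonneg_left h1 (by positivity)) hmu)
  have h4 : (n.choose 2 : ℝ) = (n : ℝ) * ((n : ℝ) + (-1)) / 2 := by
    rw [Nat.cast_choose_two]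
    ring
  have h5 : (((n : ℝ) / ((n : ℝ) + (-((d : ℝ) + 1)))) ^ d) ^ p * ((n : ℝ) ^ 2 * phi d k p) =
      ((((n : ℝ) / ((n : ℝ) + (-((d : ℝ) + 1)))) ^ d) ^ p * ((n : ℝ) / ((n : ℝ) + (-1))) *
        phi d k p) * ((n : ℝ) * ((n : ℝ) + (-1))) := by
    have : (n : ℝ) + (-1) ≠ 0 := by linarith
    field_simp
  rw [h5] at h3
  have h6 : (0 : ℝ) < (n : ℝ) * ((n : ℝ) + (-1)) := by
    apply mul_pos <;> linarith
  have h7 := h3.trans (mul_le_mul_of_nonneg_right hnN.le h6.le)
  rw [h4]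
  linarith

end Pool.Agent.N225.NT.UP
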